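import Pool.Agent.H47.ST.Targets

/-!
# The gap map is antitone (ANT)
-/

set_option autoImplicit false

namespace Pool.Agent.H14.STK

open Finset Pool.Agent.H47.ST

theorem nr_mono (v : List ℕ) : ∀ h h' : ℕ, h ≤ h' → nr h v ≤ nr h' v := by
  induction v with
  | nil =>
    intro h h' _
    simp [nr]
  | cons a v ih =>
    intro h h' hh
    simp only [nr]
    by_cases h1 : h ≤ a
    · rw [if_pos h1]
      by_cases h2 : h' ≤ a
      · rw [if_pos h2]
      · rw [if_neg h2]
        have := ih (a + 1) h' (by omega)
        omega
    · rw [if_neg h1, if_neg (by omega)]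
      have := ih h h' hh
      omega

theorem nr_le_length (v : List ℕ) : ∀ h : ℕ, nr h v ≤ v.length := by
  induction v with
  | nil =>
    intro h
    simp [nr]
  | cons a v ih =>
    intro h
    simp only [nr, List.length_cons]
    split_ifs
    · have := ih (a + 1)
      omega
    · have := ih h
      omega

theorem nr_drop_le (v : List ℕ) : ∀ k : ℕ, nr 0 (v.drop k) ≤ nr 0 v := by
  induction v with
  | nil =>
    intro k
    simp [nr]
  | cons a v ih =>
    intro k
    cases k with
    | zero => simp
    | succ k =>
      rw [List.drop_succ_cons]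
      refine (ih k).trans ?_
      simp only [nr, Nat.zero_le, if_true]
      exact nr_mono v 0 (a + 1) (Nat.zero_le _)

theorem pf_ANT : T_ANT := by
  intro w p q hpq
  refine ⟨?_, ?_⟩
  · unfold gT
    have h1 : w.drop q = (w.drop p).drop (q - p) := by
      rw [List.drop_drop]
      congr 1
      omega
    rw [h1]
    exact nr_drop_le _ _
  · unfold gT
    refine (nr_le_length _ 0).trans ?_
    rw [List.length_drop]
    omega

end Pool.Agent.H14.STK
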