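import Pool.Agent.H47.ST.Targets

/-!
# Geometric sums (GEO)
-/

set_option autoImplicit false

namespace Pool.Agent.H14.STK

open Finset Pool.Agent.H47.ST

theorem geo_eq (U : ℝ) (hU : 1 < U) (I : Finset ℕ) :
    (∑ c ∈ I, 1 / U ^ (I.filter (fun c' => c < c')).card) =
      U / (U - 1) * (1 - (1 / U) ^ I.card) := by
  have hU0 : U ≠ 0 := by linarith
  have hU1 : U - 1 ≠ 0 := by
    intro h
    linarith
  induction I using Finset.induction_on_min with
  | empty => simp
  | insert a s ha ih =>
    have has : a ∉ s := fun h => lt_irrefl _ (ha a h)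
    rw [Finset.sum_insert has, Finset.card_insert_of_notMem has]
    have h1 : (insert a s).filter (fun c' => a < c') = s := by
      rw [Finset.filter_insert, if_neg (lt_irrefl a)]
      exact Finset.filter_true_of_mem ha
    have h2 : ∀ c ∈ s, (insert a s).filter (fun c' => c < c') =
        s.filter (fun c' => c < c') := by
      intro c hc
      rw [Finset.filter_insert, if_neg (not_lt.mpr (ha c hc).le)]
    rw [h1, Finset.sum_congr rfl (fun c hc => by rw [h2 c hc]), ih, pow_succ, one_div_pow]
    field_simp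
    ring

theorem pf_GEO : T_GEO := by
  refine ⟨?_, ?_⟩
  · intro U I hU
    rw [geo_eq U hU I]
    have h1 : 0 ≤ (1 / U) ^ I.card := by positivity
    have h2 : 0 ≤ U / (U - 1) := div_nonneg (by linarith) (by linarith)
    calc U / (U - 1) * (1 - (1 / U) ^ I.card) ≤ U / (U - 1) * 1 :=
          mul_le_mul_of_nonneg_left (by linarith) h2
      _ = U / (U - 1) := mul_one _
  · intro R hR
    have hR0 : (0 : ℝ) < R := by exact_mod_cast hR
    set x : ℝ := Real.exp (1 / R) with hx
    have h1 : (∑ c ∈ range R, Real.exp (((R : ℝ) - 1 - c) / R)) = ∑ j ∈ range R, x ^ j := by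
      rw [← Finset.sum_range_reflect]
      refine Finset.sum_congr rfl fun j hj => ?_
      rw [Finset.mem_range] at hj
      rw [hx, ← Real.exp_nat_mul]
      congr 1
      have h2 : ((R - 1 - j : ℕ) : ℝ) = (R : ℝ) - 1 - j := by
        rw [Nat.cast_sub (by omega), Nat.cast_sub hR, Nat.cast_one]
      rw [h2]
      ring
    have h2 : x ^ R = Real.exp 1 := by
      rw [hx, ← Real.exp_nat_mul]
      congr 1
      field_simp
    have h3 : (∑ j ∈ range R, x ^ j) * (x - 1) = Real.exp 1 - 1 := by
      rw [geom_sum_mul, h2]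
    have h4 : 1 / (R : ℝ) ≤ x - 1 := by
      have := Real.add_one_le_exp (1 / (R : ℝ))
      linarith
    have h5 : 0 ≤ ∑ j ∈ range R, x ^ j := Finset.sum_nonneg fun j _ => by positivity
    rw [h1]
    have h6 : (∑ j ∈ range R, x ^ j) * (1 / (R : ℝ)) ≤ Real.exp 1 - 1 := by
      rw [← h3]
      exact mul_le_mul_of_nonneg_left h4 h5
    calc (∑ j ∈ range R, x ^ j) = R * ((∑ j ∈ range R, x ^ j) * (1 / (R : ℝ))) := by
          field_simp
      _ ≤ R * (Real.exp 1 - 1) := mul_le_mul_of_nonneg_left h6 hR0.le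

end Pool.Agent.H14.STK
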