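import Pool.Agent.H47.ST.Targets

/-!
# Own block, regular case (MR)
-/

set_option autoImplicit false

namespace Pool.Agent.H14.STK

open Finset Pool.Agent.H47.ST

theorem wt_nonneg (R : ℕ) {W U : ℝ} (hW : 0 ≤ W) (hU : 0 ≤ U) (e hl r hr : ℕ) :
    0 ≤ wt R W U e hl r hr := by
  unfold wt
  refine mul_nonneg (mul_nonneg (Real.exp_pos _).le ?_) ?_
  · split_ifs
    · exact hW
    · exact zero_le_one
  · split_ifs
    · exact hU
    · exact zero_le_one

theorem phC_nonneg (R : ℕ) {W U : ℝ} (hW : 0 ≤ W) (hU : 0 ≤ U) (e : ℕ) (B : List ℕ) :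
    ∀ hl hr : ℕ, 0 ≤ phC R W U e hl B hr := by
  induction B with
  | nil =>
    intro hl hr
    simp only [phC]
    exact zero_le_one
  | cons a B ih =>
    intro hl hr
    simp only [phC]
    exact mul_nonneg (wt_nonneg R hW hU _ _ _ _) (ih _ _)

theorem cl_ge (e n : ℕ) : n ≤ cl e n := by
  unfold cl
  split_ifs <;> omega

theorem wt_new (R : ℕ) (W U : ℝ) (e c hl : ℕ) (hce : c % 2 = e) (hhl : c + 3 ≤ hl) :
    wt R W U e hl 0 (c + 2) ≤ Real.exp (((R : ℝ) - 1 - c) / R) := by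
  unfold wt
  have h1 : ¬ walker hl 0 (c + 2) := by
    unfold walker
    omega
  have h2 : ¬ pend e hl 0 (c + 2) := by
    unfold pend
    omega
  rw [if_neg h1, if_neg h2, mul_one, mul_one]
  apply Real.exp_le_exp.mpr
  have h3 : c + 2 ≤ Lh e hl 0 (c + 2) := by
    unfold Lh
    refine le_min ?_ ?_
    · refine le_trans ?_ (cl_ge _ _)
      omega
    · have h4 : max (c + 2) (0 + 1) - 1 = c + 1 := by omega
      rw [h4]
      unfold cl
      rw [if_neg (by omega)]
  have h4 : ((c : ℝ) + 2) ≤ (Lh e hl 0 (c + 2) : ℝ) := by exact_mod_cast h3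
  refine div_le_div_of_nonneg_right ?_ (Nat.cast_nonneg R)
  linarith

theorem pf_MR (h1 : T_TOP) (h2 : T_APP) (h3 : T_MIR) (h4 : T_YSR) (h5 : T_XSR) : T_MR := by
  intro R W U e c X Y hR hW hU he hY hc hX
  obtain ⟨ht1, ht2, ht3, ht4⟩ := h1
  have hW0 : 0 ≤ W := by linarith
  have hU0 : 0 ≤ U := by linarith
  set X2 : List ℕ := (up (1 - e) 0 X.reverse).reverse with hX2
  set Y2 : List ℕ := up e 0 Y with hY2
  have htX2 : top 0 X ≤ top 0 X2 := by
    rw [hX2, ht3, ht4, ht3]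
    split_ifs <;> omega
  have htY2 : top 0 Y2 = c + 2 := by
    rw [hY2, ht4, hY, if_pos]
    exact ⟨by omega, by omega⟩
  have hins : ins e X Y = X2 ++ 0 :: Y2 := rfl
  have htop : top 0 (0 :: Y2) = c + 2 := by
    show top (max 0 (0 + 1)) Y2 = c + 2
    rw [ht1, htY2]
    omega
  have hL1 : phC R W U e 0 (ins e X Y) 0 = phC R W U e 0 X2 (c + 2) *
      (wt R W U e (top 0 X2) 0 (c + 2) * phC R W U e (max (top 0 X2) 1) Y2 0) := by
    rw [hins, h2, htop]
    have e1 : max (c + 2) 0 = c + 2 := by omega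
    have e2 : max 0 (top 0 X2) = top 0 X2 := by omega
    rw [e1, e2]
    simp only [phC]
    rw [htY2, e1]
  have hR1 : phC R W U e 0 (X ++ Y) 0 = phC R W U e 0 X (c + 1) *
      phC R W U e (top 0 X) Y 0 := by
    rw [h2, hY]
    have e1 : max (c + 1) 0 = c + 1 := by omega
    have e2 : max 0 (top 0 X) = top 0 X := by omega
    rw [e1, e2]
  have hright := h4 R W U e (top 0 X) (max (top 0 X2) 1) Y hR hW hU he (by omega) (by omega)
    (by rw [hY]; omega) (by omega)
  have hleft := h5 R W U (1 - e) (c + 1) (c + 2) X.reverse hR hW hU (by omega) (by omega)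
    (by omega) (by rw [ht3]; omega) (by omega)
  have hm1 : phC R W U (1 - e) (c + 2) (up (1 - e) 0 X.reverse) 0 =
      phC R W U e 0 X2 (c + 2) := by
    have h6 := h3 R W U e 0 (c + 2) X2 he
    rw [hX2, List.reverse_reverse] at h6
    exact h6
  have hm2 : phC R W U (1 - e) (c + 1) X.reverse 0 = phC R W U e 0 X (c + 1) :=
    h3 R W U e 0 (c + 1) X he
  rw [hm1, hm2] at hleft
  have e3 : top 0 Y - 1 = c := by omega
  have e4 : c + 1 - 1 = c := by omega
  rw [e3] at hright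
  rw [e4] at hleft
  have hw := wt_new R W U e c (top 0 X2) hc (by omega)
  set a : ℝ := ((X.reverse.takeWhile (fun r => decide (r < c))).length : ℝ) with ha
  set b : ℝ := ((Y.takeWhile (fun r => decide (r < c))).length : ℝ) with hb
  have hz : (zM c X Y : ℝ) = a + (b + 1) := by
    rw [ha, hb]
    unfold zM
    push_cast
    ring
  have hexp : Real.exp (2 * (zM c X Y : ℝ) / R) =
      Real.exp (2 * a / R) * Real.exp (2 * (b + 1) / R) := by
    rw [← Real.exp_add, hz]
    congr 1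
    ring
  rw [hL1, hR1, hexp]
  have hK : zK c X = (X.reverse.takeWhile (fun r => decide (r ≤ c))).count c := rfl
  rw [hK]
  set κ : ℕ := (X.reverse.takeWhile (fun r => decide (r ≤ c))).count c with hκ
  set A := phC R W U e 0 X2 (c + 2) with hA
  set A0 := phC R W U e 0 X (c + 1) with hA0
  set B := phC R W U e (max (top 0 X2) 1) Y2 0 with hB
  set B0 := phC R W U e (top 0 X) Y 0 with hB0
  set w := wt R W U e (top 0 X2) 0 (c + 2) with hw'
  have hA0n : 0 ≤ A0 := phC_nonneg R hW0 hU0 _ _ _ _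
  have hBn : 0 ≤ B := phC_nonneg R hW0 hU0 _ _ _ _
  have hB0n : 0 ≤ B0 := phC_nonneg R hW0 hU0 _ _ _ _
  have hwn : 0 ≤ w := wt_nonneg R hW0 hU0 _ _ _ _
  have hmul : (A * Real.exp (2 * a / R) * W ^ κ) * (B * Real.exp (2 * (b + 1) / R)) ≤
      (U * A0) * (U * B0) :=
    mul_le_mul hleft hright (mul_nonneg hBn (Real.exp_pos _).le) (mul_nonneg hU0 hA0n)
  calc A * (w * B) * (Real.exp (2 * a / R) * Real.exp (2 * (b + 1) / R)) * W ^ κ =
        w * ((A * Real.exp (2 * a / R) * W ^ κ) * (B * Real.exp (2 * (b + 1) / R))) := by ring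
    _ ≤ w * ((U * A0) * (U * B0)) := mul_le_mul_of_nonneg_left hmul hwn
    _ ≤ Real.exp (((R : ℝ) - 1 - c) / R) * ((U * A0) * (U * B0)) :=
        mul_le_mul_of_nonneg_right hw (mul_nonneg (mul_nonneg hU0 hA0n) (mul_nonneg hU0 hB0n))
    _ = U ^ 2 * Real.exp (((R : ℝ) - 1 - c) / R) * (A0 * B0) := by ring

end Pool.Agent.H14.STK
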