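import Pool.Agent.H47.ST.Targets

/-!
# The rank process for words (STW)
-/

set_option autoImplicit false

namespace Pool.Agent.H14.STK

open Finset Pool.Agent.H47.ST

theorem pf_STW (h1 : T_ITE) (h2 : T_GST) (h3 : T_ANT) (h4 : T_INV) : T_STW := by
  intro n w r p hw hp hI
  have hlen : ∀ k, (T^[k] w).length = n := by
    intro k
    rw [(h1 n w p k hw hp).2.2.length_eq, List.length_range]
  have hbd : ∀ k q, gw w k q ≤ n := by
    intro k q
    have h5 := (h3 (T^[k] w) q q le_rfl).2
    rw [hlen] at h5
    exact h5
  have hanti : ∀ k q q', q ≤ q' → q' ≤ n → gw w k q' ≤ gw w k q := by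
    intro k q q' hq _
    exact (h3 (T^[k] w) q q' hq).1
  have hInv := h4 n p (gw w) r (fun k q _ => hbd k q) hanti hp hI
  have hagree : ∀ k q, q ≤ n + 1 → gw (step w p) k q = insg (gw w) p k q := by
    intro k q hq
    obtain ⟨h5, h6, -⟩ := h1 n w p k hw hp
    have h7 := h2 (T^[k] w) (orb (gw w) k p) q (by rw [hlen]; exact h6) (by rw [hlen]; exact hq)
    show gT (T^[k] (step w p)) q = insg (gw w) p k q
    rw [h5, h7]
    rfl
  have hins : ∀ k q, insg (gw w) p k q ≤ n + 1 := by
    intro k q
    unfold insg
    split_ifs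
    · have := hbd k q
      omega
    · have := hbd k q
      omega
    · have := hbd k (q - 1)
      omega
  have horb : ∀ k q, q ≤ n + 1 → orb (gw (step w p)) k q = orb (insg (gw w) p) k q ∧
      orb (insg (gw w) p) k q ≤ n + 1 := by
    intro k
    induction k with
    | zero =>
      intro q hq
      exact ⟨rfl, hq⟩
    | succ k ih =>
      intro q hq
      obtain ⟨h5, h6⟩ := ih q hq
      refine ⟨?_, hins k _⟩
      show gw (step w p) k (orb (gw (step w p)) k q) =
        insg (gw w) p k (orb (insg (gw w) p) k q)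
      rw [h5]
      exact hagree k _ h6
  intro k a b hab hb
  rw [(horb k a (hab.trans hb)).1, (horb k b hb).1]
  exact hInv k a b hab hb

end Pool.Agent.H14.STK
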